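import Mathlib

/-!
MP_7682a8_an, project KB: the Koebe constant of `S_H^0` is at least `1/14`.
Definitions and statements of the modules (board kb_modules).  Proofs in words: KB/Paper.md.

A module proves `theorem x (h1 : YStmt) … : XStmt` with the hypotheses named in the column `uses`.
-/

set_option autoImplicit false

open Metric Set MeasureTheory Filter
open scoped Topology

namespace Pool.Agent.Lib.MP_7682a8_an.KB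

noncomputable section

/-! ## Definitions -/

/-- the harmonic map `h + conj g` -/
def ff (h g : ℂ → ℂ) (z : ℂ) : ℂ := h z + starRingEnd ℂ (g z)

/-- all maps of the class `S_H^0` cover the disc of radius `d` -/
def COV (d : ℝ) : Prop := ∀ h g : ℂ → ℂ,
  DifferentiableOn ℂ h (ball (0 : ℂ) 1) → DifferentiableOn ℂ g (ball (0 : ℂ) 1) →
  h 0 = 0 → deriv h 0 = 1 → g 0 = 0 → deriv g 0 = 0 →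
  (∀ z ∈ ball (0 : ℂ) 1, ‖deriv g z‖ < ‖deriv h z‖) →
  Set.InjOn (fun z => h z + starRingEnd ℂ (g z)) (ball (0 : ℂ) 1) →
  ball (0 : ℂ) d ⊆ (fun z => h z + starRingEnd ℂ (g z)) '' ball (0 : ℂ) 1

/-- a map of the class `S_H^0` which omits the value `-δ` -/
structure Om (h g : ℂ → ℂ) (δ : ℝ) : Prop where
  dh : DifferentiableOn ℂ h (ball (0 : ℂ) 1)
  dg : DifferentiableOn ℂ g (ball (0 : ℂ) 1)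
  h0 : h 0 = 0
  h1 : deriv h 0 = 1
  g0 : g 0 = 0
  g1 : deriv g 0 = 0
  lt : ∀ z ∈ ball (0 : ℂ) 1, ‖deriv g z‖ < ‖deriv h z‖
  inj : Set.InjOn (fun z => h z + starRingEnd ℂ (g z)) (ball (0 : ℂ) 1)
  pos : 0 < δ
  om : ∀ z ∈ ball (0 : ℂ) 1, h z + starRingEnd ℂ (g z) ≠ -(δ : ℂ)

/-- `ξ` is the continuous branch of `(1/2) log (1 + f/δ)` with `ξ 0 = 0` -/
structure Br (h g : ℂ → ℂ) (δ : ℝ) (ξ : ℂ → ℂ) : Prop where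
  cont : ContinuousOn ξ (ball (0 : ℂ) 1)
  zero : ξ 0 = 0
  exp : ∀ z ∈ ball (0 : ℂ) 1, (δ : ℂ) * (Complex.exp (2 * ξ z) - 1) = h z + starRingEnd ℂ (g z)

/-- the Schwarz lemma for the dilatation -/
def Sw (h g : ℂ → ℂ) : Prop := ∀ z ∈ ball (0 : ℂ) 1, ‖deriv g z‖ ≤ ‖z‖ * ‖deriv h z‖

/-- the real linear map `v ↦ p v + s conj v` (`p = ∂_z`, `s = ∂_{z bar}`) -/
def wd (p s : ℂ) : ℂ →L[ℝ] ℂ :=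
  p • ContinuousLinearMap.id ℝ ℂ + s • (Complex.conjCLE : ℂ →L[ℝ] ℂ)

/-- `a = z h' / (f G)`, `G = exp ξ` -/
def aa (h : ℂ → ℂ) (δ : ℝ) (ξ : ℂ → ℂ) (z : ℂ) : ℂ :=
  z * deriv h z / ((δ : ℂ) * (Complex.exp (2 * ξ z) - 1) * Complex.exp (ξ z))

/-- `b = conj (z g') / (f G)` -/
def bb (g : ℂ → ℂ) (δ : ℝ) (ξ : ℂ → ℂ) (z : ℂ) : ℂ :=
  starRingEnd ℂ (z * deriv g z) / ((δ : ℂ) * (Complex.exp (2 * ξ z) - 1) * Complex.exp (ξ z))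

/-- `q = (G - 1) / (G + 1)` -/
def qq (ξ : ℂ → ℂ) (z : ℂ) : ℂ := (Complex.exp (ξ z) - 1) / (Complex.exp (ξ z) + 1)

/-- `J(r) = ∫ (|a|² - |b|²) dθ` over the circle of radius `r` -/
def JJ (h g : ℂ → ℂ) (δ : ℝ) (ξ : ℂ → ℂ) (r : ℝ) : ℝ :=
  ∫ θ in (0 : ℝ)..(2 * Real.pi),
    (‖aa h δ ξ (circleMap 0 r θ)‖ ^ 2 - ‖bb g δ ξ (circleMap 0 r θ)‖ ^ 2)

/-- the error function `E₀` of the multiplier -/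
def E0 (G : ℂ) : ℂ := ((G - 1) ^ 2 - (G - 1) ^ 3) / 2

/-- the coefficient `M` of the multiplier (`s = r² / R²`) -/
def MM (s : ℝ) (G : ℂ) : ℂ :=
  G / 4 * (-(((1 - s) / 2 : ℝ) : ℂ) * (G + 1) ^ 2 + ((5 / 2 * (1 / s - 1) : ℝ) : ℂ) * (G - 1) ^ 2)

/-- the multiplier `Y` -/
def YY (R r : ℝ) (q : ℂ) : ℂ :=
  (((1 - r ^ 2 / R ^ 2) / 2 : ℝ) : ℂ) / q - ((4 * Real.log (R / r) : ℝ) : ℂ) +
    ((5 / 2 * (R ^ 2 / r ^ 2 - 1) : ℝ) : ℂ) * q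

/-- majorant of `|E₀|` on `|ξ| ≤ X` -/
def epsb (X : ℝ) : ℝ := X ^ 2 / 2 + 11 / 24 * X ^ 4 + X ^ 5 / 2 + X ^ 6 / 2

/-- majorant of `|M|` on `|ξ| ≤ X` -/
def mb (X s : ℝ) : ℝ :=
  (1 - s) / 8 * (4 + 8 * X + (5 / s - 9 + 8 * s) * X ^ 2 +
    5 / s * (2 * X ^ 3 + 25 / 12 * X ^ 4 + 12 / 5 * X ^ 5) - (22 / 3 * X ^ 3 + 19 / 4 * X ^ 4))

/-- the pointwise loss -/
def eb (r X s : ℝ) : ℝ :=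
  r ^ 2 + 2 * r * epsb X +
    (r ^ 2 + r * epsb X + 2 * r * mb X s) ^ 2 / (1 - r ^ 2 - 4 * r * mb X s)

/-- numerical input: the growth `|ξ| ≤ κ r / (1 - r)` gives the total loss `≤ L` on `(0, R)` -/
structure Good (κ R L : ℝ) : Prop where
  κ0 : 0 < κ
  R0 : 0 < R
  R1 : R < 1
  X1 : κ * R / (1 - R) ≤ 18 / 25
  den : ∀ r : ℝ, 0 < r → r ≤ R →
    0 < 1 - r ^ 2 - 4 * r * mb (κ * r / (1 - r)) (r ^ 2 / R ^ 2)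
  int : ∀ x : ℝ, 0 < x → x < R →
    ∫ r in x..R, eb r (κ * r / (1 - r)) (r ^ 2 / R ^ 2) / r ≤ L

/-! ## Group A: the class, growth -/

/-- SCH. Schwarz lemma for the dilatation. -/
def SchStmt : Prop := ∀ h g : ℂ → ℂ, DifferentiableOn ℂ h (ball (0 : ℂ) 1) →
  DifferentiableOn ℂ g (ball (0 : ℂ) 1) → deriv g 0 = 0 →
  (∀ z ∈ ball (0 : ℂ) 1, ‖deriv g z‖ < ‖deriv h z‖) → Sw h g

/-- KTR. The covering theorem at an arbitrary point (affine and Koebe transform). -/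
def KtrStmt : Prop := ∀ d : ℝ, 0 < d → COV d → ∀ h g : ℂ → ℂ,
  DifferentiableOn ℂ h (ball (0 : ℂ) 1) → DifferentiableOn ℂ g (ball (0 : ℂ) 1) →
  (∀ z ∈ ball (0 : ℂ) 1, ‖deriv g z‖ < ‖deriv h z‖) →
  Set.InjOn (fun z => h z + starRingEnd ℂ (g z)) (ball (0 : ℂ) 1) →
  ∀ c ∈ ball (0 : ℂ) 1, ∀ w : ℂ, (∀ z ∈ ball (0 : ℂ) 1, h z + starRingEnd ℂ (g z) ≠ w) →
  d * ((1 - ‖c‖ ^ 2) * (‖deriv h c‖ ^ 2 - ‖deriv g c‖ ^ 2)) ≤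
    ‖starRingEnd ℂ (deriv h c) * (w - ff h g c) -
      starRingEnd ℂ (deriv g c) * starRingEnd ℂ (w - ff h g c)‖

/-- GRI. Growth inequality. (from SCH, KTR) -/
def GriStmt : Prop := ∀ (d : ℝ) (h g : ℂ → ℂ) (δ : ℝ), 0 < d → COV d → Om h g δ →
  ∀ c ∈ ball (0 : ℂ) 1, d * ((1 - ‖c‖) * (1 - ‖c‖ ^ 2)) * ‖deriv h c‖ ≤ ‖ff h g c + δ‖

/-- ROT. Rotation. -/
def RotStmt : Prop := ∀ d : ℝ, (∀ (h g : ℂ → ℂ) (δ : ℝ), Om h g δ → d ≤ δ) → COV d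

/-- BRN. Existence of the branch. -/
def BrnStmt : Prop := ∀ (h g : ℂ → ℂ) (δ : ℝ), Om h g δ → ∃ ξ : ℂ → ℂ, Br h g δ ξ

/-- DER. The derivative of the branch. -/
def DerStmt : Prop := ∀ (h g : ℂ → ℂ) (δ : ℝ) (ξ : ℂ → ℂ), Om h g δ → Br h g δ ξ →
  ∀ z ∈ ball (0 : ℂ) 1, HasFDerivAt ξ
    (wd (deriv h z / (2 * (ff h g z + δ))) (starRingEnd ℂ (deriv g z) / (2 * (ff h g z + δ)))) z

/-- GRO. Growth of the branch. (from DER) -/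
def GroStmt : Prop := ∀ (h g : ℂ → ℂ) (δ : ℝ) (ξ : ℂ → ℂ) (d : ℝ), Om h g δ → Br h g δ ξ →
  Sw h g → 0 < d →
  (∀ c ∈ ball (0 : ℂ) 1, d * ((1 - ‖c‖) * (1 - ‖c‖ ^ 2)) * ‖deriv h c‖ ≤ ‖ff h g c + δ‖) →
  ∀ z ∈ ball (0 : ℂ) 1, ‖ξ z‖ ≤ ‖z‖ / (2 * d * (1 - ‖z‖))

/-! ## Group B: area -/

/-- QDE. The derivative of `q`. (from DER) -/
def QdeStmt : Prop := ∀ (h g : ℂ → ℂ) (δ : ℝ) (ξ : ℂ → ℂ), Om h g δ → Br h g δ ξ →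
  ∀ z ∈ ball (0 : ℂ) 1, z ≠ 0 → HasFDerivAt (qq ξ)
    (wd (qq ξ z * aa h δ ξ z / z) (qq ξ z * bb g δ ξ z / starRingEnd ℂ z)) z

/-- TOP. Injectivity of `q`, the values `q` and `1/q` are disjoint and lie in an annulus.
(from QDE, CON) -/
def TopStmt : Prop := ∀ (h g : ℂ → ℂ) (δ : ℝ) (ξ : ℂ → ℂ), Om h g δ → Br h g δ ξ →
  Set.InjOn (qq ξ) (ball (0 : ℂ) 1) ∧
  (∀ z ∈ ball (0 : ℂ) 1, ∀ z' ∈ ball (0 : ℂ) 1, qq ξ z * qq ξ z' ≠ 1) ∧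
  (∀ ε m : ℝ, 0 < ε → ε < 1 → 0 < m → (∀ z : ℂ, ‖z‖ = ε → m ≤ ‖qq ξ z‖) →
    ∀ z : ℂ, ε ≤ ‖z‖ → ‖z‖ < 1 → m ≤ ‖qq ξ z‖ ∧ m * ‖qq ξ z‖ ≤ 1)

/-- ARE. The area theorem (abstract form). -/
def AreStmt : Prop := ∀ (q P S : ℂ → ℂ) (ε ρ m : ℝ), 0 < ε → ε < ρ → 0 < m →
  (∀ z : ℂ, ε < ‖z‖ → ‖z‖ < ρ →
    HasFDerivAt q (wd (q z * P z / z) (q z * S z / starRingEnd ℂ z)) z) →
  (∀ z : ℂ, ε < ‖z‖ → ‖z‖ < ρ → ‖S z‖ ≤ ‖P z‖) →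
  Set.InjOn q {z | ε < ‖z‖ ∧ ‖z‖ < ρ} →
  (∀ z z' : ℂ, ε < ‖z‖ → ‖z‖ < ρ → ε < ‖z'‖ → ‖z'‖ < ρ → q z * q z' ≠ 1) →
  (∀ z : ℂ, ε < ‖z‖ → ‖z‖ < ρ → m ≤ ‖q z‖ ∧ m * ‖q z‖ ≤ 1) →
  ∫ z in {z : ℂ | ε < ‖z‖ ∧ ‖z‖ < ρ}, (‖P z‖ ^ 2 - ‖S z‖ ^ 2) / ‖z‖ ^ 2 ≤
    2 * Real.pi * Real.log (1 / m)

/-- POL. Polar coordinates in an annulus. -/
def PolStmt : Prop := ∀ (φ : ℂ → ℝ) (ε ρ : ℝ), 0 < ε → ε < ρ →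
  ContinuousOn φ {z | ε ≤ ‖z‖ ∧ ‖z‖ ≤ ρ} →
  ∫ z in {z : ℂ | ε < ‖z‖ ∧ ‖z‖ < ρ}, φ z / ‖z‖ ^ 2 =
    ∫ r in ε..ρ, (∫ θ in (0 : ℝ)..(2 * Real.pi), φ (circleMap 0 r θ)) / r

/-- CON. Continuity of `a`, `b` in the punctured disc, `|b| ≤ |z| |a|`. -/
def ConStmt : Prop := ∀ (h g : ℂ → ℂ) (δ : ℝ) (ξ : ℂ → ℂ), Om h g δ → Br h g δ ξ →
  ContinuousOn (aa h δ ξ) (ball (0 : ℂ) 1 \ {0}) ∧
  ContinuousOn (bb g δ ξ) (ball (0 : ℂ) 1 \ {0}) ∧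
  (∀ z ∈ ball (0 : ℂ) 1, ff h g z + δ ≠ 0 ∧ Complex.exp (ξ z) + 1 ≠ 0) ∧
  (∀ z ∈ ball (0 : ℂ) 1, z ≠ 0 → Complex.exp (2 * ξ z) - 1 ≠ 0 ∧ qq ξ z ≠ 0) ∧
  ContinuousOn (JJ h g δ ξ) (Ioo 0 1) ∧
  (Sw h g → ∀ z ∈ ball (0 : ℂ) 1, ‖bb g δ ξ z‖ ≤ ‖z‖ * ‖aa h δ ξ z‖)

/-- ARF. The area theorem. (from QDE, TOP, ARE, POL, CON) -/
def ArfStmt : Prop := ∀ (h g : ℂ → ℂ) (δ : ℝ) (ξ : ℂ → ℂ) (ε ρ m : ℝ), Om h g δ → Br h g δ ξ →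
  Sw h g → 0 < ε → ε < ρ → ρ < 1 → 0 < m → (∀ z : ℂ, ‖z‖ = ε → m ≤ ‖qq ξ z‖) →
  ∫ r in ε..ρ, JJ h g δ ξ r / r ≤ 2 * Real.pi * Real.log (1 / m)

/-! ## Group C: identities -/

/-- ASY. Behaviour at the origin. -/
def AsyStmt : Prop := ∀ (h g : ℂ → ℂ) (δ : ℝ) (ξ : ℂ → ℂ), Om h g δ → Br h g δ ξ →
  Tendsto (fun z => qq ξ z / z) (𝓝[≠] (0 : ℂ)) (𝓝 (1 / (4 * (δ : ℂ)))) ∧
  Tendsto (aa h δ ξ) (𝓝[≠] (0 : ℂ)) (𝓝 1) ∧ Tendsto (bb g δ ξ) (𝓝[≠] (0 : ℂ)) (𝓝 0)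

/-- ASB. The boundary term at the origin. (from ASY) -/
def AsbStmt : Prop := ∀ (h g : ℂ → ℂ) (δ : ℝ) (ξ : ℂ → ℂ) (R : ℝ), Om h g δ → Br h g δ ξ →
  0 < R → Tendsto (fun ε : ℝ => ∫ θ in (0 : ℝ)..(2 * Real.pi),
    starRingEnd ℂ (circleMap 0 ε θ * deriv g (circleMap 0 ε θ)) *
      YY R ε (qq ξ (circleMap 0 ε θ))) (𝓝[>] (0 : ℝ)) (𝓝 0)

/-- WND. The winding number. (from QDE, CON, ASY) -/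
def WndStmt : Prop := ∀ (h g : ℂ → ℂ) (δ : ℝ) (ξ : ℂ → ℂ) (r : ℝ), Om h g δ → Br h g δ ξ →
  0 < r → r < 1 → ∫ θ in (0 : ℝ)..(2 * Real.pi),
    (aa h δ ξ (circleMap 0 r θ) - bb g δ ξ (circleMap 0 r θ)) = 2 * Real.pi

/-- NLG. Integration of `2 z ∂_z = ∂_t - i ∂_θ` over an annulus. -/
def NlgStmt : Prop := ∀ (Φ P S : ℂ → ℂ) (ε R : ℝ), 0 < ε → ε < R →
  (∀ z : ℂ, ε ≤ ‖z‖ → ‖z‖ ≤ R → HasFDerivAt Φ (wd (P z) (S z)) z) →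
  ContinuousOn P {z | ε ≤ ‖z‖ ∧ ‖z‖ ≤ R} → ContinuousOn S {z | ε ≤ ‖z‖ ∧ ‖z‖ ≤ R} →
  ∫ r in ε..R, (∫ θ in (0 : ℝ)..(2 * Real.pi),
      2 * circleMap 0 r θ * P (circleMap 0 r θ)) / r =
    ∫ θ in (0 : ℝ)..(2 * Real.pi), (Φ (circleMap 0 R θ) - Φ (circleMap 0 ε θ))

/-- BDR. The identity for the multiplier. (from QDE, CON, NLG) -/
def BdrStmt : Prop := ∀ (h g : ℂ → ℂ) (δ : ℝ) (ξ : ℂ → ℂ) (ε R : ℝ), Om h g δ → Br h g δ ξ →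
  0 < ε → ε < R → R < 1 →
  ∫ r in ε..R, (∫ θ in (0 : ℝ)..(2 * Real.pi),
      bb g δ ξ (circleMap 0 r θ) * (E0 (Complex.exp (ξ (circleMap 0 r θ))) - 1 +
        2 * (aa h δ ξ (circleMap 0 r θ) - 1) *
          MM (r ^ 2 / R ^ 2) (Complex.exp (ξ (circleMap 0 r θ))))) / r =
    -(1 / (4 * (δ : ℂ))) * ∫ θ in (0 : ℝ)..(2 * Real.pi),
      starRingEnd ℂ (circleMap 0 ε θ * deriv g (circleMap 0 ε θ)) *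
        YY R ε (qq ξ (circleMap 0 ε θ))

/-! ## Group D: inequalities -/

/-- PWA. The pointwise inequality near the origin. -/
def PwaStmt : Prop := ∀ (a b E M : ℂ) (r e m : ℝ), 0 ≤ r → ‖b‖ ≤ r * ‖a‖ → ‖E‖ ≤ e → ‖M‖ ≤ m →
  0 < 1 - r ^ 2 - 4 * r * m →
  1 + 2 * (a - b - 1).re - 2 * (b * (E - 1 + 2 * (a - 1) * M)).re -
    (r ^ 2 + 2 * r * e + (r ^ 2 + r * e + 2 * r * m) ^ 2 / (1 - r ^ 2 - 4 * r * m)) ≤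
      ‖a‖ ^ 2 - ‖b‖ ^ 2

/-- PWB. The pointwise inequality of Clunie and Sheil-Small. -/
def PwbStmt : Prop := ∀ (a b : ℂ) (r : ℝ), 0 ≤ r → r < 1 → ‖b‖ ≤ r * ‖a‖ →
  1 - 2 * r / (1 + r) + 2 * ((1 - r) / (1 + r)) * (a - b - 1).re ≤ ‖a‖ ^ 2 - ‖b‖ ^ 2

/-- SUP. Majorants of `E₀` and `M`. -/
def SupStmt : Prop := ∀ (x : ℂ) (X s : ℝ), ‖x‖ ≤ X → X ≤ 18 / 25 → 0 < s → s ≤ 1 →
  ‖E0 (Complex.exp x)‖ ≤ epsb X ∧ ‖MM s (Complex.exp x)‖ ≤ mb X s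

/-- NUM. The numerical inequalities. -/
def NumStmt : Prop := Good 8 (41 / 500) (19 / 500) ∧ Good (71 / 10) (181 / 2000) (411 / 10000) ∧
  Good (701 / 100) (91 / 1000) (203 / 5000)

/-- OUT. Lower bound in the outer annulus. (from CON, WND, PWB) -/
def OutStmt : Prop := ∀ (h g : ℂ → ℂ) (δ : ℝ) (ξ : ℂ → ℂ) (R ρ : ℝ), Om h g δ → Br h g δ ξ →
  Sw h g → 0 < R → R ≤ ρ → ρ < 1 →
  2 * Real.pi * Real.log (ρ / R) - 4 * Real.pi * Real.log ((1 + ρ) / (1 + R)) ≤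
    ∫ r in R..ρ, JJ h g δ ξ r / r

/-- INN. Lower bound in the inner annulus. (from CON, WND, BDR, ASB, PWA, SUP) -/
def InnStmt : Prop := ∀ (κ R L : ℝ) (h g : ℂ → ℂ) (δ : ℝ) (ξ : ℂ → ℂ), Good κ R L →
  Om h g δ → Br h g δ ξ → Sw h g →
  (∀ z ∈ ball (0 : ℂ) 1, ‖ξ z‖ ≤ κ * ‖z‖ / (1 - ‖z‖)) →
  ∃ η : ℝ → ℝ, Tendsto η (𝓝[>] (0 : ℝ)) (𝓝 0) ∧ ∀ ε : ℝ, 0 < ε → ε < R →
    2 * Real.pi * Real.log (R / ε) - 2 * Real.pi * L - η ε ≤ ∫ r in ε..R, JJ h g δ ξ r / r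

/-- LIM. The limit `ε → 0`. (from ARF, ASY) -/
def LimStmt : Prop := ∀ (h g : ℂ → ℂ) (δ : ℝ) (ξ : ℂ → ℂ) (ρ c : ℝ) (η : ℝ → ℝ), Om h g δ →
  Br h g δ ξ → Sw h g → 0 < ρ → ρ < 1 → Tendsto η (𝓝[>] (0 : ℝ)) (𝓝 0) →
  (∀ᶠ ε in 𝓝[>] (0 : ℝ), 2 * Real.pi * Real.log (ρ / ε) - 2 * Real.pi * c - η ε ≤
    ∫ r in ε..ρ, JJ h g δ ξ r / r) →
  Real.log ρ - c ≤ Real.log (4 * δ)

/-- FI0. The theorem of Clunie and Sheil-Small. (from SCH, ROT, BRN, OUT, LIM) -/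
def Fi0Stmt : Prop := COV (1 / 16)

/-- FI1. One step of the iteration. (from SCH, GRI, ROT, BRN, GRO, CON, OUT, INN, LIM) -/
def Fi1Stmt : Prop := ∀ κ R L : ℝ, Good κ R L → COV (1 / (2 * κ)) →
  COV ((1 + R) ^ 2 / 16 * Real.exp (-L))

end

end Pool.Agent.Lib.MP_7682a8_an.KB
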